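import Pool.Agent.U946.BP.Sets

set_option autoImplicit false

/-! Coding by sequences of zeros and ones. -/

namespace Pool.Agent.U946.BP

open MeasureTheory Filter Finset
open scoped Topology ENNReal

universe u

variable {X : Type u} [MeasurableSpace X] {μ : Measure X}

/-- the product of the values at `n, 2n, 3n` -/
def bits (x : ℕ → Bool) (n : ℕ) : ℝ := if x n = true ∧ x (2 * n) = true ∧ x (3 * n) = true then 1 else 0

/-- all `n` -/
lemma of_primes {T : X → X} (A B C : Set X)
    (h : ∀ p : ℕ, p.Prime → 7 ≤ p → ∀ᵐ x ∂μ, Cv fun n => if p ∣ n then 0 else tri T (ind A) (ind B) (ind C) x n) :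
    ∀ᵐ x ∂μ, Cv (tri T (ind A) (ind B) (ind C) x) := by
  have h' : ∀ p : ℕ, ∀ᵐ x ∂μ, p.Prime → 7 ≤ p → Cv fun n => if p ∣ n then 0 else
      tri T (ind A) (ind B) (ind C) x n := by
    intro p
    by_cases hp : p.Prime ∧ 7 ≤ p
    · filter_upwards [h p hp.1 hp.2] with x hx _ _ using hx
    · exact ae_of_all _ fun x h1 h2 => absurd ⟨h1, h2⟩ hp
  filter_upwards [ae_all_iff.2 h'] with x hx
  refine Cv.approx fun ε hε => ?_
  obtain ⟨k, hk⟩ := exists_nat_one_div_lt hε
  obtain ⟨p, hpk, hp⟩ := Nat.exists_infinite_primes (max 7 (k + 1))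
  have hp7 : 7 ≤ p := (le_max_left _ _).trans hpk
  have hpk' : k + 1 ≤ p := (le_max_right _ _).trans hpk
  refine ⟨_, hx p hp hp7, eventually_atTop.2 ⟨1, fun N hN => ?_⟩⟩
  have hN' : (0 : ℝ) < N := Nat.cast_pos.2 hN
  have hp0 : (0 : ℝ) < p := Nat.cast_pos.2 hp.pos
  unfold av
  rw [← mul_sub, ← sum_sub_distrib, abs_mul, abs_of_pos (inv_pos.2 hN'), inv_mul_le_iff₀ hN']
  have h1 : ∀ n, |tri T (ind A) (ind B) (ind C) x n| ≤ 1 := by
    intro n
    unfold tri
    rw [abs_mul, abs_mul]
    have a1 := ind_bd A (T^[n] x)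
    have a2 := ind_bd B (T^[2 * n] x)
    have a3 := ind_bd C (T^[3 * n] x)
    calc _ ≤ (1 : ℝ) * 1 * 1 := by gcongr
      _ = 1 := by norm_num
  have hI : Icc 1 N = Ioc 0 N := by
    ext n
    simp only [mem_Icc, mem_Ioc]
    omega
  calc |∑ n ∈ Icc 1 N, (tri T (ind A) (ind B) (ind C) x n - if p ∣ n then 0 else
        tri T (ind A) (ind B) (ind C) x n)|
      ≤ ∑ n ∈ Icc 1 N, |tri T (ind A) (ind B) (ind C) x n - if p ∣ n then 0 else
        tri T (ind A) (ind B) (ind C) x n| := abs_sum_le_sum_abs _ _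
    _ ≤ ∑ n ∈ Icc 1 N, if p ∣ n then (1 : ℝ) else 0 := by
        refine sum_le_sum fun n _ => ?_
        split_ifs
        · rw [sub_zero]
          exact h1 n
        · rw [sub_self, abs_zero]
    _ = ((N / p : ℕ) : ℝ) := by
        rw [hI, ← Nat.Ioc_filter_dvd_card_eq_div, sum_ite, sum_const_zero, add_zero, sum_const, nsmul_eq_mul, mul_one]
    _ ≤ N / p := Nat.cast_div_le
    _ ≤ N * ε := by
        rw [div_eq_mul_one_div]
        refine mul_le_mul_of_nonneg_left ?_ hN'.le
        refine le_trans ?_ hk.le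
        apply one_div_le_one_div_of_le (by positivity)
        exact_mod_cast hpk'

/-- the code of a point: `n ↦ [S^n y ∈ E]` -/
noncomputable def code (S : X → X) (E : Set X) (y : X) (n : ℕ) : Bool :=
  open Classical in if S^[n] y ∈ E then true else false

lemma code_meas {S : X → X} (hS : Measurable S) {E : Set X} (hE : MeasurableSet E) : Measurable (code S E) := by
  classical
  refine measurable_pi_iff.2 fun n => ?_
  unfold code
  exact Measurable.ite ((hS.iterate n) hE) measurable_const measurable_const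

omit [MeasurableSpace X] in
lemma code_bits (S : X → X) (E : Set X) (y : X) (n : ℕ) :
    bits (code S E y) n = tri S (ind E) (ind E) (ind E) y n := by
  have ht : ∀ k, S^[k] y ∈ E → code S E y k = true := fun k h => if_pos h
  have hf : ∀ k, S^[k] y ∉ E → code S E y k = false := fun k h => if_neg h
  have it : ∀ k, S^[k] y ∈ E → ind E (S^[k] y) = 1 := fun k h => Set.indicator_of_mem h _
  have jf : ∀ k, S^[k] y ∉ E → ind E (S^[k] y) = 0 := fun k h => Set.indicator_of_notMem h _
  unfold bits tri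
  by_cases h1 : S^[n] y ∈ E
  · by_cases h2 : S^[2 * n] y ∈ E
    · by_cases h3 : S^[3 * n] y ∈ E
      · rw [ht _ h1, ht _ h2, ht _ h3, it _ h1, it _ h2, it _ h3]
        norm_num
      · rw [ht _ h1, ht _ h2, hf _ h3, it _ h1, it _ h2, jf _ h3]
        norm_num
    · rw [hf _ h2, jf _ h2]
      norm_num
  · rw [hf _ h1, jf _ h1]
    norm_num

/-- the shift -/
def sh (x : ℕ → Bool) (n : ℕ) : Bool := x (n + 1)

lemma sh_meas : Measurable sh := measurable_pi_iff.2 fun n => measurable_pi_apply (n + 1)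

lemma sh_iter (x : ℕ → Bool) (n k : ℕ) : sh^[n] x k = x (k + n) := by
  induction n generalizing x k with
  | zero => rfl
  | succ n ih =>
    rw [Function.iterate_succ_apply, ih]
    unfold sh
    congr 1

/-- stationary sequences are enough -/
theorem of_stat (hst : ∀ ν : Measure (ℕ → Bool), IsProbabilityMeasure ν → MeasurePreserving sh ν ν →
      ∀ᵐ x ∂ν, Cv (bits x)) {S : X → X} [IsProbabilityMeasure μ] (hS : MeasurePreserving S μ μ) {E : Set X}
    (hE : MeasurableSet E) : ∀ᵐ y ∂μ, Cv (tri S (ind E) (ind E) (ind E) y) := by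
  have hm := code_meas hS.measurable hE
  have hν : IsProbabilityMeasure (μ.map (code S E)) := Measure.isProbabilityMeasure_map hm.aemeasurable
  have hcs : sh ∘ code S E = code S E ∘ S := by
    funext y n
    show code S E y (n + 1) = code S E (S y) n
    unfold code
    rw [Function.iterate_succ_apply]
  have hinv : MeasurePreserving sh (μ.map (code S E)) (μ.map (code S E)) := by
    refine ⟨sh_meas, ?_⟩
    rw [Measure.map_map sh_meas hm, hcs, ← Measure.map_map hm hS.measurable, hS.map_eq]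
  have h1 := ae_of_ae_map hm.aemeasurable (hst _ hν hinv)
  filter_upwards [h1] with y hy
  exact hy.congr fun n _ => code_bits S E y n

/-- the two-sided code -/
noncomputable def code2 (S : X ≃ᵐ X) (E : Set X) (y : X) (k : ℤ) : Bool :=
  open Classical in if ((S.toEquiv : Equiv.Perm X) ^ k) y ∈ E then true else false

lemma zpow_meas (T : X ≃ᵐ X) (k : ℤ) : Measurable fun x => ((T.toEquiv : Equiv.Perm X) ^ k) x := by
  induction k using Int.induction_on with
  | zero => exact measurable_id
  | succ k ih =>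
    have h : (fun x => ((T.toEquiv : Equiv.Perm X) ^ ((k : ℤ) + 1)) x) =
        (fun x => ((T.toEquiv : Equiv.Perm X) ^ (k : ℤ)) x) ∘ T := by
      funext x
      rw [zpow_add_one]
      rfl
    rw [h]
    exact ih.comp T.measurable
  | pred k ih =>
    have h : (fun x => ((T.toEquiv : Equiv.Perm X) ^ (-(k : ℤ) - 1)) x) =
        (fun x => ((T.toEquiv : Equiv.Perm X) ^ (-(k : ℤ))) x) ∘ T.symm := by
      funext x
      rw [zpow_sub_one]
      rfl
    rw [h]
    exact ih.comp T.symm.measurable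

lemma code2_meas (S : X ≃ᵐ X) {E : Set X} (hE : MeasurableSet E) : Measurable (code2 S E) := by
  classical
  refine measurable_pi_iff.2 fun k => ?_
  unfold code2
  exact Measurable.ite ((zpow_meas S k) hE) measurable_const measurable_const

lemma code2_nat (S : X ≃ᵐ X) (E : Set X) (y : X) (n : ℕ) : code2 S E y n = code S E y n := by
  have h : (((S.toEquiv : Equiv.Perm X) ^ (n : ℤ)) y) = S^[n] y := by
    rw [zpow_natCast]
    exact congrFun (Equiv.Perm.iterate_eq_pow (S.toEquiv : Equiv.Perm X) n).symm y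
  unfold code2 code
  rw [h]

/-- the two-sided shift -/
def sh2 (x : ℤ → Bool) (k : ℤ) : Bool := x (k + 1)

lemma sh2_meas : Measurable sh2 := measurable_pi_iff.2 fun k => measurable_pi_apply (k + 1)

/-- the two-sided shift as an equivalence -/
def she : (ℤ → Bool) ≃ᵐ (ℤ → Bool) where
  toFun := sh2
  invFun x k := x (k - 1)
  left_inv x := by
    funext k
    simp [sh2]
  right_inv x := by
    funext k
    simp [sh2]
  measurable_toFun := sh2_meas
  measurable_invFun := measurable_pi_iff.2 fun k => measurable_pi_apply (k - 1)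

lemma sh2_iter (x : ℤ → Bool) (n : ℕ) (k : ℤ) : sh2^[n] x k = x (k + n) := by
  induction n generalizing x k with
  | zero => simp
  | succ n ih =>
    rw [Function.iterate_succ_apply, ih]
    unfold sh2
    congr 1
    push_cast
    ring

/-- two-sided stationary sequences are enough for invertible maps -/
theorem of_stat2 (hst : ∀ ν : Measure (ℤ → Bool), IsProbabilityMeasure ν → MeasurePreserving sh2 ν ν →
      ∀ᵐ x ∂ν, Cv (bits fun n : ℕ => x n)) {S : X ≃ᵐ X} [IsProbabilityMeasure μ] (hS : MeasurePreserving S μ μ)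
    {E : Set X} (hE : MeasurableSet E) : ∀ᵐ y ∂μ, Cv (tri S (ind E) (ind E) (ind E) y) := by
  have hm := code2_meas S hE
  have hν : IsProbabilityMeasure (μ.map (code2 S E)) := Measure.isProbabilityMeasure_map hm.aemeasurable
  have hcs : sh2 ∘ code2 S E = code2 S E ∘ S := by
    funext y k
    simp only [Function.comp_apply, sh2, code2]
    rw [zpow_add_one]
    rfl
  have hinv : MeasurePreserving sh2 (μ.map (code2 S E)) (μ.map (code2 S E)) := by
    refine ⟨sh2_meas, ?_⟩
    rw [Measure.map_map sh2_meas hm, hcs, ← Measure.map_map hm hS.measurable, hS.map_eq]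
  have h1 := ae_of_ae_map hm.aemeasurable (hst _ hν hinv)
  filter_upwards [h1] with y hy
  refine hy.congr fun n _ => ?_
  rw [← code_bits]
  unfold bits
  simp only [code2_nat]

/-- bounded versions -/
lemma exists_version {f : X → ℝ} (hf : MemLp f ⊤ μ) :
    ∃ g : X → ℝ, Measurable g ∧ (∃ C : ℝ, ∀ x, |g x| ≤ C) ∧ f =ᵐ[μ] g := by
  obtain ⟨C, hC⟩ : ∃ C : ℝ, ∀ᵐ x ∂μ, ‖f x‖ ≤ C := by
    have h1 := hf.2
    rw [eLpNorm_exponent_top] at h1
    refine ⟨(eLpNormEssSup f μ).toReal, ?_⟩
    filter_upwards [ae_le_eLpNormEssSup (f := f) (μ := μ)] with x hx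
    have h2 := (ENNReal.toReal_le_toReal (by simp) h1.ne).2 hx
    simpa using h2
  have hm : Measurable (hf.1.mk f) := hf.1.stronglyMeasurable_mk.measurable
  refine ⟨fun x => max (-|C|) (min |C| (hf.1.mk f x)), measurable_const.max (measurable_const.min hm), ⟨|C|, ?_⟩, ?_⟩
  · intro x
    rw [abs_le]
    exact ⟨le_max_left _ _, max_le (by linarith [abs_nonneg C]) (min_le_left _ _)⟩
  · filter_upwards [hC, hf.1.ae_eq_mk] with x h1 h2
    rw [← h2]
    have h3 : |f x| ≤ |C| := h1.trans (le_abs_self C)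
    rw [abs_le] at h3
    rw [min_eq_right h3.2, max_eq_right h3.1]

/-- from sets to functions in `L^∞` -/
theorem of_bdd [IsProbabilityMeasure μ] {T : X → X} (hT : MeasurePreserving T μ μ)
    (h : ∀ A B C : Set X, MeasurableSet A → MeasurableSet B → MeasurableSet C →
      ∀ᵐ x ∂μ, Cv (tri T (ind A) (ind B) (ind C) x)) {f g k : X → ℝ} (hf : MemLp f ⊤ μ) (hg : MemLp g ⊤ μ)
    (hk : MemLp k ⊤ μ) : ∀ᵐ x ∂μ, Cv (tri T f g k x) := by
  obtain ⟨f', hf', ⟨C1, h1⟩, e1⟩ := exists_version hf
  obtain ⟨g', hg', ⟨C2, h2⟩, e2⟩ := exists_version hg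
  obtain ⟨k', hk', ⟨C3, h3⟩, e3⟩ := exists_version hk
  have hb := of_sets (K := |C1| + |C2| + |C3|) hT.measurable h hf' hg' hk'
    (fun x => (h1 x).trans (by linarith [le_abs_self C1, abs_nonneg C2, abs_nonneg C3]))
    (fun x => (h2 x).trans (by linarith [le_abs_self C2, abs_nonneg C1, abs_nonneg C3]))
    (fun x => (h3 x).trans (by linarith [le_abs_self C3, abs_nonneg C2, abs_nonneg C1]))
  have hq : ∀ {a b : X → ℝ}, a =ᵐ[μ] b → ∀ᵐ x ∂μ, ∀ n : ℕ, a (T^[n] x) = b (T^[n] x) := by
    intro a b hab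
    rw [ae_all_iff]
    intro n
    exact (hT.iterate n).quasiMeasurePreserving.ae hab
  filter_upwards [hb, hq e1, hq e2, hq e3] with x hx x1 x2 x3
  refine hx.congr fun n _ => ?_
  unfold tri
  rw [x1, x2, x3]

end Pool.Agent.U946.BP
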