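import Mathlib

set_option autoImplicit false

/-! Averages along `n, 2n, 3n`: from bounded functions to one set. -/

namespace Pool.Agent.U946.BP

open MeasureTheory Filter Finset
open scoped Topology

universe u

/-- the averages of a sequence -/
noncomputable def av (φ : ℕ → ℝ) (N : ℕ) : ℝ := (N : ℝ)⁻¹ * ∑ n ∈ Icc 1 N, φ n

/-- convergence of the averages -/
def Cv (φ : ℕ → ℝ) : Prop := ∃ L : ℝ, Tendsto (av φ) atTop (𝓝 L)

lemma conv_of_approx {a : ℕ → ℝ} (h : ∀ ε : ℝ, 0 < ε → ∃ b : ℕ → ℝ, (∃ L, Tendsto b atTop (𝓝 L)) ∧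
    ∀ᶠ N in atTop, |a N - b N| ≤ ε) : ∃ L, Tendsto a atTop (𝓝 L) := by
  apply cauchySeq_tendsto_of_complete
  rw [Metric.cauchySeq_iff']
  intro ε hε
  obtain ⟨b, ⟨L, hL⟩, hb⟩ := h (ε / 5) (by positivity)
  have h1 := (Metric.tendsto_nhds.1 hL) (ε / 5) (by positivity)
  obtain ⟨K, hK⟩ := eventually_atTop.1 (h1.and hb)
  refine ⟨K, fun n hn => ?_⟩
  have h2 := hK n hn
  have h3 := hK K le_rfl
  rw [Real.dist_eq] at h2 h3 ⊢
  have e : a n - a K = (a n - b n) + (b n - L) - (b K - L) - (a K - b K) := by ring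
  rw [e]
  have := abs_sub ((a n - b n) + (b n - L) - (b K - L)) (a K - b K)
  have := abs_sub ((a n - b n) + (b n - L)) (b K - L)
  have := abs_add_le (a n - b n) (b n - L)
  linarith [h2.1, h2.2, h3.1, h3.2]

lemma av_add (φ ψ : ℕ → ℝ) (N : ℕ) : av (fun n => φ n + ψ n) N = av φ N + av ψ N := by
  unfold av
  rw [sum_add_distrib, mul_add]

lemma av_const_mul (c : ℝ) (φ : ℕ → ℝ) (N : ℕ) : av (fun n => c * φ n) N = c * av φ N := by
  unfold av
  rw [← mul_sum]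
  ring

lemma Cv.add {φ ψ : ℕ → ℝ} (h1 : Cv φ) (h2 : Cv ψ) : Cv fun n => φ n + ψ n := by
  obtain ⟨L, hL⟩ := h1
  obtain ⟨M, hM⟩ := h2
  exact ⟨L + M, (hL.add hM).congr fun N => (av_add φ ψ N).symm⟩

lemma Cv.const_mul {φ : ℕ → ℝ} (c : ℝ) (h1 : Cv φ) : Cv fun n => c * φ n := by
  obtain ⟨L, hL⟩ := h1
  exact ⟨c * L, (hL.const_mul c).congr fun N => (av_const_mul c φ N).symm⟩

lemma Cv.zero : Cv fun _ => 0 := ⟨0, tendsto_const_nhds.congr fun N => by simp [av]⟩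

lemma Cv.sum {ι : Type*} (s : Finset ι) {φ : ι → ℕ → ℝ} (h : ∀ i ∈ s, Cv (φ i)) : Cv fun n => ∑ i ∈ s, φ i n := by
  classical
  induction s using Finset.induction_on with
  | empty => simpa using Cv.zero
  | insert i s hi ih =>
    have h1 := (h i (mem_insert_self _ _)).add (ih fun j hj => h j (mem_insert_of_mem hj))
    refine (funext fun n => ?_ : _ = fun n => ∑ i ∈ insert i s, φ i n) ▸ h1
    rw [sum_insert hi]

lemma Cv.congr {φ ψ : ℕ → ℝ} (h : Cv φ) (he : ∀ n, 1 ≤ n → φ n = ψ n) : Cv ψ := by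
  obtain ⟨L, hL⟩ := h
  refine ⟨L, hL.congr fun N => ?_⟩
  unfold av
  congr 1
  exact sum_congr rfl fun n hn => he n (mem_Icc.1 hn).1

/-- a bound for the averages -/
lemma av_bd {φ : ℕ → ℝ} {C : ℝ} (hC : 0 ≤ C) (h : ∀ n, |φ n| ≤ C) (N : ℕ) : |av φ N| ≤ C := by
  unfold av
  rcases Nat.eq_zero_or_pos N with rfl | hN
  · simpa using hC
  have hN' : (0 : ℝ) < N := Nat.cast_pos.2 hN
  rw [abs_mul, abs_of_pos (inv_pos.2 hN'), inv_mul_le_iff₀ hN']
  calc |∑ n ∈ Icc 1 N, φ n| ≤ ∑ n ∈ Icc 1 N, |φ n| := abs_sum_le_sum_abs _ _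
    _ ≤ ∑ _n ∈ Icc 1 N, C := sum_le_sum fun n _ => h n
    _ = N * C := by rw [sum_const, Nat.card_Icc, nsmul_eq_mul]; simp

/-- convergence for almost every point of families of sequences that are limits of convergent ones -/
lemma Cv.approx {φ : ℕ → ℝ} (h : ∀ ε : ℝ, 0 < ε → ∃ ψ : ℕ → ℝ, Cv ψ ∧ ∀ᶠ N in atTop, |av φ N - av ψ N| ≤ ε) :
    Cv φ :=
  conv_of_approx fun ε hε => by
    obtain ⟨ψ, ⟨L, hL⟩, h2⟩ := h ε hε
    exact ⟨av ψ, ⟨L, hL⟩, h2⟩

variable {X : Type u} [MeasurableSpace X]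

/-- a class of functions which contains the indicator functions, closed under linear combinations and uniform limits -/
lemma all_of_ind (P : (X → ℝ) → Prop) (hind : ∀ s, MeasurableSet s → P (s.indicator fun _ => 1))
    (hadd : ∀ f g, P f → P g → P fun x => f x + g x) (hmul : ∀ (c : ℝ) f, P f → P fun x => c * f x)
    (hlim : ∀ f : X → ℝ, Measurable f → (∀ ε : ℝ, 0 < ε → ∃ g, P g ∧ ∀ x, |f x - g x| ≤ ε) → P f)
    {f : X → ℝ} (hf : Measurable f) {C : ℝ} (hC : ∀ x, |f x| ≤ C) : P f := by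
  classical
  refine hlim f hf fun ε hε => ?_
  obtain ⟨k, hk⟩ := exists_nat_one_div_lt hε
  have hk0 : (0 : ℝ) < (k : ℝ) + 1 := by positivity
  obtain ⟨M, hM⟩ := exists_nat_ge (((k : ℝ) + 1) * |C|)
  have hfl : ∀ x, ⌊((k : ℝ) + 1) * f x⌋ ∈ Finset.Icc (-(M : ℤ) - 1) M := by
    intro x
    have h1 : |((k : ℝ) + 1) * f x| ≤ M := by
      rw [abs_mul, abs_of_pos hk0]
      exact (mul_le_mul_of_nonneg_left ((hC x).trans (le_abs_self C)) hk0.le).trans hM
    rw [abs_le] at h1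
    rw [Finset.mem_Icc]
    constructor
    · rw [Int.le_floor]
      push_cast
      linarith [h1.1]
    · have h2 : (⌊((k : ℝ) + 1) * f x⌋ : ℝ) ≤ M := (Int.floor_le _).trans h1.2
      exact_mod_cast h2
  let g : ℤ → X → ℝ := fun i x => ((i : ℝ) / ((k : ℝ) + 1)) *
    ({x | ⌊((k : ℝ) + 1) * f x⌋ = i} : Set X).indicator (fun _ => 1) x
  have hg : ∀ i, P (g i) := by
    intro i
    refine hmul _ _ (hind _ ?_)
    exact ((hf.const_mul _).floor) (measurableSet_singleton i)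
  have hsum : ∀ s : Finset ℤ, P fun x => ∑ i ∈ s, g i x := by
    intro s
    induction s using Finset.induction_on with
    | empty =>
      have h0 := hind ∅ MeasurableSet.empty
      simpa using h0
    | insert i s hi ih =>
      have h1 := hadd _ _ (hg i) ih
      refine (funext fun x => ?_ : _ = fun x => ∑ i ∈ insert i s, g i x) ▸ h1
      rw [sum_insert hi]
  refine ⟨_, hsum (Finset.Icc (-(M : ℤ) - 1) M), fun x => ?_⟩
  have h1 : ∑ i ∈ Finset.Icc (-(M : ℤ) - 1) (M : ℤ), g i x = (⌊((k : ℝ) + 1) * f x⌋ : ℝ) / ((k : ℝ) + 1) := by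
    rw [sum_eq_single_of_mem _ (hfl x)]
    · simp only [g]
      rw [Set.indicator_of_mem (by simp), mul_one]
    · intro i _ hi
      simp only [g]
      rw [Set.indicator_of_notMem (by simpa using Ne.symm hi), mul_zero]
  rw [h1]
  have h2 := Int.floor_le (((k : ℝ) + 1) * f x)
  have h3 := Int.lt_floor_add_one (((k : ℝ) + 1) * f x)
  have h4 : f x - (⌊((k : ℝ) + 1) * f x⌋ : ℝ) / ((k : ℝ) + 1) =
      (((k : ℝ) + 1) * f x - ⌊((k : ℝ) + 1) * f x⌋) / ((k : ℝ) + 1) := by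
    field_simp
  rw [h4, abs_div, abs_of_pos hk0, abs_of_nonneg (by linarith)]
  refine le_trans ?_ hk.le
  exact div_le_div_of_nonneg_right (by linarith) hk0.le

end Pool.Agent.U946.BP
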