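import Pool.Agent.U946.BP.Red

set_option autoImplicit false

/-! Averages along `n, 2n, 3n`: three sets, and one set over residues modulo a prime. -/

namespace Pool.Agent.U946.BP

open MeasureTheory Filter Finset
open scoped Topology ENNReal

universe u

variable {X : Type u} [MeasurableSpace X] {μ : Measure X}

/-- one factor with a bounded weight -/
lemma slot {T : X → X} (hT : Measurable T) {c : ℕ} {w : X → ℕ → ℝ} {K : ℝ} (hw : ∀ x n, |w x n| ≤ K)
    (hind : ∀ s : Set X, MeasurableSet s → ∀ᵐ x ∂μ, Cv fun n => s.indicator (fun _ => (1 : ℝ)) (T^[c * n] x) * w x n)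
    {f : X → ℝ} (hf : Measurable f) {C : ℝ} (hC : ∀ x, |f x| ≤ C) :
    ∀ᵐ x ∂μ, Cv fun n => f (T^[c * n] x) * w x n := by
  refine all_of_ind (fun f => ∀ᵐ x ∂μ, Cv fun n => f (T^[c * n] x) * w x n) hind ?_ ?_ ?_ hf hC
  · intro f g hf hg
    filter_upwards [hf, hg] with x h1 h2
    exact (h1.add h2).congr fun n _ => by ring
  · intro c' f hf
    filter_upwards [hf] with x h1
    exact (h1.const_mul c').congr fun n _ => by ring
  · intro f _ h
    choose g hg hfg using fun j : ℕ => h (1 / ((j : ℝ) + 1)) (by positivity)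
    filter_upwards [ae_all_iff.2 hg] with x hx
    refine Cv.approx fun ε hε => ?_
    obtain ⟨j, hj⟩ := exists_nat_one_div_lt (show 0 < ε / (|K| + 1) by positivity)
    refine ⟨_, hx j, Eventually.of_forall fun N => ?_⟩
    have h1 : av (fun n => f (T^[c * n] x) * w x n) N - av (fun n => g j (T^[c * n] x) * w x n) N =
        av (fun n => (f (T^[c * n] x) - g j (T^[c * n] x)) * w x n) N := by
      unfold av
      rw [← mul_sub, ← sum_sub_distrib]
      congr 1
      exact sum_congr rfl fun n _ => by ring
    rw [h1]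
    refine av_bd hε.le (fun n => ?_) N
    rw [abs_mul]
    have h2 := hfg j (T^[c * n] x)
    have h3 : |w x n| ≤ |K| + 1 := (hw x n).trans ((le_abs_self K).trans (by linarith))
    calc |f (T^[c * n] x) - g j (T^[c * n] x)| * |w x n| ≤ ε / (|K| + 1) * (|K| + 1) :=
          mul_le_mul (h2.trans hj.le) h3 (abs_nonneg _) (by positivity)
      _ = ε := by field_simp

/-- the products along `n, 2n, 3n` -/
def tri (T : X → X) (f g h : X → ℝ) (x : X) (n : ℕ) : ℝ := f (T^[n] x) * g (T^[2 * n] x) * h (T^[3 * n] x)

/-- the indicator function -/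
noncomputable def ind (s : Set X) : X → ℝ := s.indicator fun _ => 1

omit [MeasurableSpace X] in
lemma ind_bd (s : Set X) (x : X) : |ind s x| ≤ 1 := by
  unfold ind
  by_cases h : x ∈ s
  · rw [Set.indicator_of_mem h]; simp
  · rw [Set.indicator_of_notMem h]; simp

lemma ind_meas {s : Set X} (hs : MeasurableSet s) : Measurable (ind s) := measurable_const.indicator hs

/-- sets are enough -/
lemma of_sets {T : X → X} (hT : Measurable T)
    (h : ∀ A B C : Set X, MeasurableSet A → MeasurableSet B → MeasurableSet C →
      ∀ᵐ x ∂μ, Cv (tri T (ind A) (ind B) (ind C) x)) {f g k : X → ℝ} (hf : Measurable f) (hg : Measurable g)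
    (hk : Measurable k) {K : ℝ} (hfK : ∀ x, |f x| ≤ K) (hgK : ∀ x, |g x| ≤ K) (hkK : ∀ x, |k x| ≤ K) :
    ∀ᵐ x ∂μ, Cv (tri T f g k x) := by
  have hmul : ∀ {a b : ℝ} {A B : ℝ}, |a| ≤ A → |b| ≤ B → |a * b| ≤ |A| * |B| := by
    intro a b A B ha hb
    rw [abs_mul]
    exact mul_le_mul (ha.trans (le_abs_self _)) (hb.trans (le_abs_self _)) (abs_nonneg _) (abs_nonneg _)
  have h1 : ∀ B C : Set X, MeasurableSet B → MeasurableSet C → ∀ᵐ x ∂μ, Cv (tri T f (ind B) (ind C) x) := by
    intro B C hB hC
    have := slot (μ := μ) (c := 1) (w := fun x n => ind B (T^[2 * n] x) * ind C (T^[3 * n] x)) (K := |(1 : ℝ)| * |(1 : ℝ)|)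
      hT (fun x n => hmul (ind_bd _ _) (ind_bd _ _)) (fun s hs => by
        filter_upwards [h s B C hs hB hC] with x hx
        refine hx.congr fun n _ => ?_
        unfold tri ind
        rw [one_mul, mul_assoc]) hf hfK
    filter_upwards [this] with x hx
    refine hx.congr fun n _ => ?_
    unfold tri
    rw [one_mul, mul_assoc]
  have h2 : ∀ C : Set X, MeasurableSet C → ∀ᵐ x ∂μ, Cv (tri T f g (ind C) x) := by
    intro C hC
    have := slot (μ := μ) (c := 2) (w := fun x n => f (T^[n] x) * ind C (T^[3 * n] x)) (K := |K| * |(1 : ℝ)|)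
      hT (fun x n => hmul (hfK _) (ind_bd _ _)) (fun s hs => by
        filter_upwards [h1 s C hs hC] with x hx
        refine hx.congr fun n _ => ?_
        unfold tri ind
        ring) hg hgK
    filter_upwards [this] with x hx
    refine hx.congr fun n _ => ?_
    unfold tri
    ring
  have := slot (μ := μ) (c := 3) (w := fun x n => f (T^[n] x) * g (T^[2 * n] x)) (K := |K| * |K|)
    hT (fun x n => hmul (hfK _) (hgK _)) (fun s hs => by
      filter_upwards [h2 s hs] with x hx
      refine hx.congr fun n _ => ?_
      unfold tri ind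
      ring) hk hkK
  filter_upwards [this] with x hx
  refine hx.congr fun n _ => ?_
  unfold tri
  ring

/-- the uniform measure on the residues -/
noncomputable def ru (p : ℕ) : Measure (ZMod p) := (p : ℝ≥0∞)⁻¹ • Measure.count

lemma ru_singleton (p : ℕ) (a : ZMod p) : ru p {a} = (p : ℝ≥0∞)⁻¹ := by
  unfold ru
  rw [Measure.smul_apply, Measure.count_singleton, smul_eq_mul, mul_one]

instance ru_prob (p : ℕ) [NeZero p] : IsProbabilityMeasure (ru p) := ⟨by
  unfold ru
  rw [Measure.smul_apply, Measure.count_apply_finite _ Set.finite_univ, smul_eq_mul]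
  have : (Set.finite_univ (α := ZMod p)).toFinset.card = p := by
    rw [Set.Finite.toFinset_univ, card_univ, ZMod.card]
  rw [this]
  exact ENNReal.inv_mul_cancel (by exact_mod_cast NeZero.ne p) (by simp)⟩

lemma ru_mp (p : ℕ) [NeZero p] : MeasurePreserving (fun r : ZMod p => r + 1) (ru p) (ru p) := by
  refine ⟨measurable_of_countable _, ?_⟩
  refine Measure.ext_of_singleton fun a => ?_
  rw [Measure.map_apply (measurable_of_countable _) (measurableSet_singleton a)]
  have : (fun r : ZMod p => r + 1) ⁻¹' {a} = {a - 1} := by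
    ext r
    simp only [Set.mem_preimage, Set.mem_singleton_iff]
    exact eq_sub_iff_add_eq.symm
  rw [this, ru_singleton, ru_singleton]

/-- the transformation of the product -/
def sk (p : ℕ) (T : X → X) : ZMod p × X → ZMod p × X := Prod.map (fun r => r + 1) T

omit [MeasurableSpace X] in
lemma sk_iter (p : ℕ) (T : X → X) (n : ℕ) (r : ZMod p) (x : X) : (sk p T)^[n] (r, x) = (r + n, T^[n] x) := by
  unfold sk
  rw [Prod.map_iterate, Prod.map_apply]
  congr 1
  induction n generalizing r with
  | zero => simp
  | succ n ih =>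
    rw [Function.iterate_succ_apply, ih]
    push_cast
    ring

/-- one set is enough for the `n` which are not divisible by `p` -/
lemma of_one {p : ℕ} [Fact p.Prime] (hp : 7 ≤ p) {T : X → X} [IsProbabilityMeasure μ]
    (h : ∀ E : Set (ZMod p × X), MeasurableSet E →
      ∀ᵐ y ∂((ru p).prod μ), Cv (tri (sk p T) (ind E) (ind E) (ind E) y)) {A B C : Set X} (hA : MeasurableSet A)
    (hB : MeasurableSet B) (hC : MeasurableSet C) :
    ∀ᵐ x ∂μ, Cv fun n => if p ∣ n then 0 else tri T (ind A) (ind B) (ind C) x n := by
  have hne : ∀ k : ℕ, 0 < k → k < 7 → (k : ZMod p) ≠ 0 := by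
    intro k hk hk7 h0
    rw [ZMod.natCast_eq_zero_iff] at h0
    have := Nat.le_of_dvd hk h0
    omega
  have h1 : (1 : ZMod p) ≠ 0 := one_ne_zero
  have h2 : (2 : ZMod p) ≠ 0 := by have := hne 2 (by norm_num) (by norm_num); exact_mod_cast this
  have h3 : (3 : ZMod p) ≠ 0 := by have := hne 3 (by norm_num) (by norm_num); exact_mod_cast this
  have h4 : (4 : ZMod p) ≠ 0 := by have := hne 4 (by norm_num) (by norm_num); exact_mod_cast this
  have h5 : (5 : ZMod p) ≠ 0 := by have := hne 5 (by norm_num) (by norm_num); exact_mod_cast this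
  -- the set for the residue `s`
  let E : ZMod p → Set (ZMod p × X) := fun s => ({s} ×ˢ A) ∪ (({2 * s} ×ˢ B) ∪ ({3 * s} ×ˢ C))
  have hE : ∀ s, MeasurableSet (E s) := fun s =>
    ((measurableSet_singleton _).prod hA).union
      (((measurableSet_singleton _).prod hB).union ((measurableSet_singleton _).prod hC))
  have hx : ∀ s : ZMod p, ∀ᵐ x ∂μ, Cv (tri (sk p T) (ind (E s)) (ind (E s)) (ind (E s)) ((0 : ZMod p), x)) := by
    intro s
    have h6 := Measure.ae_ae_of_ae_prod (h (E s) (hE s))
    by_contra hcon
    have h7 : ru p {(0 : ZMod p)} = 0 := by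
      refine measure_mono_null ?_ (ae_iff.1 h6)
      intro r hr
      rw [Set.mem_singleton_iff] at hr
      subst hr
      exact hcon
    rw [ru_singleton] at h7
    simp at h7
  filter_upwards [ae_all_iff.2 hx] with x hx
  have hs := Cv.sum (univ.erase (0 : ZMod p)) (φ := fun s => tri (sk p T) (ind (E s)) (ind (E s)) (ind (E s))
    ((0 : ZMod p), x)) fun s _ => hx s
  refine hs.congr fun n _ => ?_
  have hterm : ∀ s : ZMod p, s ≠ 0 → tri (sk p T) (ind (E s)) (ind (E s)) (ind (E s)) ((0 : ZMod p), x) n =
      if (n : ZMod p) = s then tri T (ind A) (ind B) (ind C) x n else 0 := by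
    intro s hs0
    unfold tri
    rw [sk_iter, sk_iter, sk_iter]
    simp only [zero_add]
    push_cast
    by_cases hn : (n : ZMod p) = s
    · rw [if_pos hn, hn]
      have d12 : s ≠ 2 * s := fun h => hs0 (by linear_combination -h)
      have d13 : s ≠ 3 * s := fun h => by
        have : 2 * s = 0 := by linear_combination -h
        exact (mul_ne_zero h2 hs0) this
      have d23 : (2 : ZMod p) * s ≠ 3 * s := fun h => hs0 (by linear_combination -h)
      have e1 : ind (E s) (s, T^[n] x) = ind A (T^[n] x) := by
        unfold ind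
        by_cases hA' : T^[n] x ∈ A
        · rw [Set.indicator_of_mem hA', Set.indicator_of_mem]
          exact Or.inl ⟨rfl, hA'⟩
        · rw [Set.indicator_of_notMem hA', Set.indicator_of_notMem]
          rintro (⟨-, h⟩ | ⟨h, -⟩ | ⟨h, -⟩)
          · exact hA' h
          · exact d12 h
          · exact d13 h
      have e2 : ind (E s) (2 * s, T^[2 * n] x) = ind B (T^[2 * n] x) := by
        unfold ind
        by_cases hB' : T^[2 * n] x ∈ B
        · rw [Set.indicator_of_mem hB', Set.indicator_of_mem]
          exact Or.inr (Or.inl ⟨rfl, hB'⟩)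
        · rw [Set.indicator_of_notMem hB', Set.indicator_of_notMem]
          rintro (⟨h, -⟩ | ⟨-, h⟩ | ⟨h, -⟩)
          · exact d12 h.symm
          · exact hB' h
          · exact d23 h
      have e3 : ind (E s) (3 * s, T^[3 * n] x) = ind C (T^[3 * n] x) := by
        unfold ind
        by_cases hC' : T^[3 * n] x ∈ C
        · rw [Set.indicator_of_mem hC', Set.indicator_of_mem]
          exact Or.inr (Or.inr ⟨rfl, hC'⟩)
        · rw [Set.indicator_of_notMem hC', Set.indicator_of_notMem]
          rintro (⟨h, -⟩ | ⟨h, -⟩ | ⟨-, h⟩)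
          · exact d13 h.symm
          · exact d23 h.symm
          · exact hC' h
      rw [e1, e2, e3]
    · rw [if_neg hn]
      -- one of the three factors vanishes
      have hz : ∀ (q : ZMod p) (y : X), q ≠ s → q ≠ 2 * s → q ≠ 3 * s → ind (E s) (q, y) = 0 := by
        intro q y q1 q2 q3
        unfold ind
        rw [Set.indicator_of_notMem]
        rintro (⟨h, -⟩ | ⟨h, -⟩ | ⟨h, -⟩)
        · exact q1 h
        · exact q2 h
        · exact q3 h
      by_cases hn2 : (n : ZMod p) = 2 * s
      · have : ind (E s) (2 * (n : ZMod p), T^[2 * n] x) = 0 := by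
          rw [hn2]
          refine hz _ _ ?_ ?_ ?_
          · intro h
            exact (mul_ne_zero h3 hs0) (by linear_combination h)
          · intro h
            exact (mul_ne_zero h2 hs0) (by linear_combination h)
          · intro h
            exact hs0 (by linear_combination h)
        rw [this]
        ring
      · by_cases hn3 : (n : ZMod p) = 3 * s
        · have : ind (E s) (2 * (n : ZMod p), T^[2 * n] x) = 0 := by
            rw [hn3]
            refine hz _ _ ?_ ?_ ?_
            · intro h
              exact (mul_ne_zero h5 hs0) (by linear_combination h)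
            · intro h
              exact (mul_ne_zero h4 hs0) (by linear_combination h)
            · intro h
              exact (mul_ne_zero h3 hs0) (by linear_combination h)
          rw [this]
          ring
        · rw [hz _ _ hn hn2 hn3]
          ring
  rw [sum_congr rfl fun s hs => hterm s (ne_of_mem_erase hs)]
  by_cases hpn : p ∣ n
  · rw [if_pos hpn]
    refine sum_eq_zero fun s hs => ?_
    rw [if_neg]
    rw [(ZMod.natCast_eq_zero_iff n p).2 hpn]
    exact (ne_of_mem_erase hs).symm
  · rw [if_neg hpn]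
    have hn0 : (n : ZMod p) ≠ 0 := fun h => hpn ((ZMod.natCast_eq_zero_iff n p).1 h)
    rw [sum_ite_eq, if_pos (mem_erase.2 ⟨hn0, mem_univ _⟩)]

end Pool.Agent.U946.BP
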